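import Pool.Agent.J6H27.EF.Final

/-!
# Extended Frege proofs with lines of bounded depth need many nonlocal extension variables

Extended Frege has polynomial-size refutations of the counting principle modulo `q`, and all the
lines may have bounded depth, since extension variables can abbreviate all the formulas that are
used. Here it is shown that every refutation of subexponential size whose lines have bounded depth
uses at least `N ^ δ` extension variables which are not local. An extension variable is local if it
stands for a Boolean function (of any complexity) of at most `N ^ δ` formulas of bounded depth;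
these formulas may contain the other (nonlocal) extension variables. The number of the local
extension variables is not bounded. The lines may also contain `N ^ δ` gates `MOD p`.
-/

set_option autoImplicit false

namespace Pool.Agent.Results.MP_e81270_lc.FewNonlocalExtensions

open Finset Filter Pool.Agent.Helper600R2.Cnt Pool.Agent.J6H27.EF

/-- **Few nonlocal extension variables do not help.** Let `p` be a prime number which does not
divide `q ≥ 2`, and let `d`, `c` be any numbers. There is `δ > 0` such that for all large `N` there
is no refutation of the counting principle modulo `q` on `N` points in constant-depth Frege with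
extension variables, if

* all formulas (lines, their subformulas, the formulas `X.D j` for which the nonlocal extension
  variables stand, the formulas `X.base e i` on which the local extension variables depend) belong
  to a set `𝒰` of at most `2 ^ (N ^ δ)` formulas,
* these formulas have depth at most `d` and at most `N ^ δ` maximal `MOD p` subformulas,
* each local extension variable is a Boolean function of `s ≤ N ^ δ` formulas without `MOD` gates,
* there are `k ≤ N ^ δ` nonlocal extension variables. -/
theorem result (p q : ℕ) (hp : p.Prime) (hq : 2 ≤ q) (hpq : ¬ p ∣ q) (d c : ℕ) :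
    ∃ δ : ℝ, 0 < δ ∧ ∀ᶠ N : ℕ in atTop, ∀ (s k : ℕ) (E : Type) (X : ExtSys p q N s k E)
      (𝒰 : Finset (Fm p (XVar q N E k))), SubClosed 𝒰 → (∀ e i, emb (X.base e i) ∈ 𝒰) →
      (∀ j, X.D j ∈ 𝒰) → (∀ φ ∈ 𝒰, φ.depth ≤ d) →
      (∀ φ ∈ 𝒰, (φ.tops.card : ℝ) ≤ (N : ℝ) ^ δ) → (s : ℝ) ≤ (N : ℝ) ^ δ →
      (k : ℝ) ≤ (N : ℝ) ^ δ → (𝒰.card : ℝ) ≤ (2 : ℝ) ^ ((N : ℝ) ^ δ) →
      ∀ f, ¬ EDer c X 𝒰 (.or 0 f) :=
  lower p q hp hq hpq d c

end Pool.Agent.Results.MP_e81270_lc.FewNonlocalExtensions
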