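import Pool.Agent.J6H27.EP.Final

/-!
# Extended polynomial calculus with unlimited local extension variables

Algebraic counterpart of Extended Frege: polynomial calculus over a field `K`, with extension
variables which stand for Boolean functions of the original variables. With polynomially many
arbitrary extension variables this system simulates Extended Frege. Here it is shown, for every
field, that exponentially many monomials are needed for refuting certain unsatisfiable formulas
with clauses of bounded width if every extension variable depends on boundedly many original
variables (the number of these local extension variables is not bounded), or is computed by a
circuit, on local functions, with few inputs and few gates of unbounded fan-in.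

The formulas are random formulas with three literals per clause, lifted by parities. The proof
combines the reduction operator of Alekhnovich and Razborov (`Pool.Agent.W939.PC`) with a switching
lemma for conjunctions of local functions and a choice of the values of the nonlocal functions for
which the reduction operator does not vanish.
-/

set_option autoImplicit false

namespace Pool.Agent.Results.MP_e81270_lc.LocalExtensionsPC

open Finset Filter Pool.Agent.J6H27.EP

/-- **Local extension variables do not help the polynomial calculus.** For every `κ` there are
`w` and `δ > 0` such that for all large `n` there is an unsatisfiable formula `F` with `n`
variables and at most `w * n` clauses of width at most `w` with the following property.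

Let `K` be a field and `X` a system of extension variables (any number of them), each of which

* stands for a Boolean function of at most `κ` of the `n` variables, or
* stands for any Boolean function that is determined by the values of `a ≤ δ * n` functions
  `X.base i`, each of at most `κ` variables, and by `b` conjunctions of any number of functions of
  at most `κ` variables.

Let `M` be the set of all monomials which occur in a derivation of `1`, where the axioms are all
polynomials that vanish on the assignments satisfying some `c ≤ δ * n` clauses of `F` (this
includes the extension axioms and all other identities), and the rules are linear combinations,
multiplication by a variable or by any polynomial with monomials from `M`. Then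
`2 ^ R ≤ |M| + b` for every `R` with `(b + 1) * R ≤ δ * n`. -/
theorem result (κ : ℕ) : ∃ (w : ℕ) (δ : ℝ), 0 < δ ∧ ∀ᶠ n : ℕ in atTop,
    ∃ F : Finset (Finset (Fin n × Bool)), (∀ C ∈ F, C.card ≤ w) ∧ F.card ≤ w * n ∧
      (∀ x, ∃ C ∈ F, ¬ SatC x C) ∧
      ∀ (K : Type) [Field K] (E : Type) (a b c R : ℕ) (X : Ext (Fin n) κ a b E)
        (M : Finset ((Fin n ⊕ E) →₀ ℕ)), (a : ℝ) ≤ δ * n → (c : ℝ) ≤ δ * n →
        ((b : ℝ) + 1) * R ≤ δ * n → M.card + b < 2 ^ R → ¬ Der K F c X M 1 :=
  lower κ

end Pool.Agent.Results.MP_e81270_lc.LocalExtensionsPC
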