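import Pool.Agent.J6H27.EP.FinalS

/-!
# Sum-of-squares refutations with unlimited local extension variables

Semialgebraic counterpart of Extended Frege: static refutations over the reals (Sherali-Adams,
sum-of-squares) with extension variables which stand for Boolean functions of the original
variables. With polynomially many arbitrary extension variables these refutations simulate Extended
Frege with respect to the number of monomials, since its proofs can then be brought into the form of
resolution refutations of constant width. Here it is shown that exponentially many monomials are
needed for certain unsatisfiable formulas with clauses of bounded width, if every extension variable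
depends on boundedly many original variables (the number of these local extension variables is not
bounded), or is computed by a circuit, on local functions, with few inputs and few gates of
unbounded fan-in.

The formulas are random systems of parity conditions with three variables, lifted by parities. The
proof conditions a pseudo-expectation (local averages over the solutions of the conditions near a
set of vertices, `Pool.Agent.TH658.Sos`) on the values of the nonlocal functions, after a random
restriction which makes all monomials and all wide conjunctions polynomials of small degree.
-/

set_option autoImplicit false

namespace Pool.Agent.Results.MP_e81270_lc.LocalExtensionsSumOfSquares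

open Finset Filter Pool.Agent.J6H27.EP

/-- **Local extension variables do not help sum-of-squares refutations.** For every `κ` there are
`w` and `δ > 0` such that for all large `n` there is an unsatisfiable formula `F` with `n`
variables and at most `w * n` clauses of width at most `w` with the following property.

Let `X` be a system of extension variables (any number of them), each of which

* stands for a Boolean function of at most `κ` of the `n` variables, or
* stands for any Boolean function that is determined by the values of `a ≤ δ * n` functions
  `X.base i`, each of at most `κ` variables, and by `b` conjunctions of any number of functions of
  at most `κ` variables.

Let `M` be a set of monomials which contains all monomials of the polynomials `h i`, `p j` of a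
refutation `∑ i, G i * h i ^ 2 + ∑ j, p j = -1`. Here the `G i` are any nonnegative functions of
the values of at most `c ≤ δ * n` variables and extension variables, and each `p j` vanishes on all
assignments which satisfy certain `c` clauses of `F`. Then `2 ^ R ≤ |M| + b` for every `R` with
`(b + 1) * R ≤ δ * n`. -/
theorem result (κ : ℕ) : ∃ (w : ℕ) (δ : ℝ), 0 < δ ∧ ∀ᶠ n : ℕ in atTop,
    ∃ F : Finset (Finset (Fin n × Bool)), (∀ C ∈ F, C.card ≤ w) ∧ F.card ≤ w * n ∧
      (∀ x, ∃ C ∈ F, ¬ SatC x C) ∧
      ∀ (E : Type) (a b c R : ℕ) (X : Ext (Fin n) κ a b E)
        (M : Finset ((Fin n ⊕ E) →₀ ℕ)), (a : ℝ) ≤ δ * n → (c : ℝ) ≤ δ * n →
        ((b : ℝ) + 1) * R ≤ δ * n → M.card + b < 2 ^ R → ¬ SosRef F c X M :=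
  lowerX κ

end Pool.Agent.Results.MP_e81270_lc.LocalExtensionsSumOfSquares
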