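import Pool.Agent.J6H7.GX.Mix.Final

/-!
# Short Extended Frege proofs need deep and asymmetric extension variables

Extended Frege has polynomial-size refutations of the counting principle modulo `q` on `N` points
(for `q` not dividing `N`), and all lines of these refutations may be clauses or formulas of bounded
depth, since extension variables can abbreviate all the formulas that are used. All the functions
for which the extension variables stand have decision trees of depth `N / q + 1`; the trees ask
which sets of the partition contain certain points. The definitions of the extension variables use
an order of the points.

Here it is shown: there is no refutation of size `2 ^ (M ^ δ)` if all but a few of the extension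
variables

* stand for functions with decision trees of depth `N / M` (any number of them), or
* are gates of a symmetric circuit with at most `2 ^ (N / M)` gates (a family of definitions that is
  closed under all permutations of the points; circuits of any depth with negations and disjunctions
  of unbounded fan-in).

For `M = N ^ ε` these are decision trees of depth `N ^ (1 - ε)` and `2 ^ (N ^ (1 - ε))` gates, and
the bound is exponential; for `M = (log N) ^ C` with a large constant `C` the depth is
`N / (log N) ^ C` and the bound is still superpolynomial. The refutation itself need not be
symmetric. The number of the other extension variables, which stand for arbitrary formulas, may be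
`M ^ δ`. The lines may also contain `M ^ δ` gates `MOD p`.
-/

set_option autoImplicit false

namespace Pool.Agent.Results.MP_e81270_lc.StructuredExtensions

open Finset Filter Pool.Agent.Helper600R2.Cnt Pool.Agent.J6H7.GX

/-- **Shallow extension variables and symmetric families of extension variables do not help.** Let
`p` be a prime number which does not divide `q ≥ 2`, and let `d`, `c` be any numbers. There is
`δ > 0` such that for all large `M` and all `N ≥ M` there is no refutation of the counting principle
modulo `q` on `N` points in constant-depth Frege with extension variables, if

* all formulas (lines, their subformulas, and the formulas `X.D j` for which the `k` further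
  extension variables stand) belong to a set `𝒰` of at most `2 ^ (M ^ δ)` formulas,
* these formulas have depth at most `d` and at most `M ^ δ` maximal `MOD p` subformulas,
* the shallow extension variables `e : E` (their number is not bounded) stand for decision trees
  `X.tree e β` of depth at most `N / M`, where `β` are the truth values of the further extension
  variables,
* the extension variables `g : I` are the gates of a symmetric circuit `G` with at most
  `2 ^ (N / M)` gates (`SymGates`: each gate is a disjunction, of any size, of literals; the depth
  is not bounded; the permutations of the `N` points act on the circuit),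
* there are `k ≤ M ^ δ` further extension variables. -/
theorem result (p q : ℕ) (hp : p.Prime) (hq : 2 ≤ q) (hpq : ¬ p ∣ q) (d c : ℕ) :
    ∃ δ : ℝ, 0 < δ ∧ ∀ᶠ M : ℕ in atTop, ∀ N : ℕ, M ≤ N → ∀ (k : ℕ) (E I : Type) [Fintype I]
      [MulAction (Equiv.Perm (Fin N)) I] (X : MixSys p q N k E I) (G : SymGates q N I)
      (𝒰 : Finset (Fm p (XVar q N (E ⊕ I) k))), SubClosed 𝒰 →
      (∀ e β, (X.tree e β).depth * M ≤ N) → Fintype.card I ≤ 2 ^ (N / M) →
      (∀ j, X.D j ∈ 𝒰) → (∀ φ ∈ 𝒰, φ.depth ≤ d) →
      (∀ φ ∈ 𝒰, (φ.tops.card : ℝ) ≤ (M : ℝ) ^ δ) → (k : ℝ) ≤ (M : ℝ) ^ δ →
      (𝒰.card : ℝ) ≤ (2 : ℝ) ^ ((M : ℝ) ^ δ) → ∀ f, ¬ MDer c M X G 𝒰 (.or 0 f) :=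
  Mix.mix_lower p q hp hq hpq d c

end Pool.Agent.Results.MP_e81270_lc.StructuredExtensions
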